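import Mathlib
import Pool.Agent.Run7.h750.AE2
import Pool.Agent.TH335.RF.P2
import Pool.Agent.H438R2.BR.T10
set_option autoImplicit false

/-!
# Stein's restriction conjecture: convolution weights and additive energy

Let `σ` be surface measure on the unit sphere of `ℝ^n`, `n ≥ 2`, and let `g` be bounded. Stein's
conjecture is, up to the endpoint, the statement that `∫ |(g dσ)^|² W ≤ C ‖g‖_∞² ‖W‖_n` for all
weights `W ≥ 0`. By Young's inequality `‖h₁ * h₂‖_n ≤ ‖h₁‖_p ‖h₂‖_p` with `p = 2n/(n+1)`.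

The theorem says that the *endpoint* estimate holds for the weights `h₁ * h₂`, and more generally
for the sums of two arbitrary (possibly singular) measures:

* `∬ |(g dσ)^(x - y)|² dα(x) dβ(y) ≤ C ‖g‖_∞² (I(α) I(β))^(1/2)`, where
  `I(α) = ∬ (1 + |x - y|²)^(-(n-1)/2) dα dα`, for all finite measures `α`, `β`;
* `∫ |(g dσ)^|² (h₁ * h₂) ≤ C ‖g‖_∞² ‖h₁‖_p ‖h₂‖_p`, `p = 2n/(n+1)`;
* for measurable `B ⊆ {|(g dσ)^| ≥ λ}` and every measurable `A`, with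
  `E(A,B) = ∫ |{y : y ∈ A, w - y ∈ B}|² dw`,
  `λ⁴ E(A,B)^(1 + 1/n) ≤ C |A|^(1 + 3/n) |B|^(2/n) ‖g‖_∞⁴`;
* if `|B| < ∞` and `E(B,B) ≥ δ |B|³` then
  `|B| ≤ C' δ^(-(n+1)/(2(n-1))) (‖g‖_∞/λ)^(2n/(n-1))`, the endpoint bound: the conjecture can only
  fail because of superlevel sets without additive structure.
-/

namespace Pool.Agent.Results.MP_6cbfb8_an.ConvolutionWeights

open MeasureTheory Set Metric Complex
open Pool.Agent.H789R2.FR (E sg T sg_finite)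
open Pool.Agent.H438R2.BR (Phi sphere_ft Phi_le)
open Pool.Agent.TH335.RF (phi_asym mt norm_mt)
open scoped ENNReal NNReal RealInnerProductSpace

/-- surface measure on the unit sphere -/
noncomputable def sigma (n : ℕ) : Measure (sphere (0 : E n) 1) := (volume : Measure (E n)).toSphere

/-- the Fourier transform of the measure `g dσ` -/
noncomputable def ft {n : ℕ} (g : sphere (0 : E n) 1 → ℂ) (ξ : E n) : ℂ :=
  ∫ x, Complex.exp (-(2 * Real.pi * ⟪(x : E n), ξ⟫ : ℝ) * I) * g x ∂(sigma n)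

/-- The energy `∬ (1 + |x - y|²)^(-(n-1)/2) dα(y) dα(x)` of a measure on `ℝ^n`. -/
noncomputable def energy {n : ℕ} (α : Measure (E n)) : ℝ≥0∞ :=
  ∫⁻ x, ∫⁻ y, ENNReal.ofReal ((1 + ‖x - y‖ ^ 2) ^ (-(((n : ℝ) - 1) / 2))) ∂α ∂α

/-- the convolution of two weights -/
noncomputable def conv {n : ℕ} (h₁ h₂ : E n → ℝ≥0∞) (x : E n) : ℝ≥0∞ := ∫⁻ y, h₁ y * h₂ (x - y)

/-- the norm in `L^p` of a weight -/
noncomputable def norm {n : ℕ} (p : ℝ) (h : E n → ℝ≥0∞) : ℝ≥0∞ := (∫⁻ x, h x ^ p) ^ (1 / p)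

/-- The additive energy `∫ |{y : y ∈ A, w - y ∈ B}|² dw`. -/
noncomputable def addEnergy {n : ℕ} (A B : Set (E n)) : ℝ≥0∞ :=
  ∫⁻ w, volume {y | y ∈ A ∧ w - y ∈ B} ^ 2

/-! ### Proofs -/

theorem Phi_sq (n : ℕ) (hn : 2 ≤ n) : ∃ C : ℝ, 0 < C ∧ ∀ t : ℝ, 0 ≤ t →
    ‖Phi n t‖ ^ 2 ≤ C * (1 + t ^ 2) ^ (-(((n : ℝ) - 1) / 2)) := by
  obtain ⟨c, C, hC, h⟩ := phi_asym n hn
  have hn' : (2 : ℝ) ≤ n := by exact_mod_cast hn
  set s : ℝ := ((n : ℝ) - 1) / 2 with hs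
  have hs0 : 0 < s := by rw [hs]; linarith
  set D : ℝ := 2 * ‖c‖ + C + Real.pi with hD
  have hD0 : 0 < D := by have := Real.pi_pos; positivity
  refine ⟨D ^ 2 * 2 ^ s, by positivity, fun t ht => ?_⟩
  have h2s : (0 : ℝ) < 2 ^ s := by positivity
  rcases le_or_gt 1 t with h1 | h1
  · have ht0 : 0 < t := by linarith
    have hexp : -((n : ℝ) - 1) / 2 = -s := by rw [hs]; ring
    have hts : 0 < t ^ (-s) := by positivity
    have e1 : ‖Phi n t‖ ≤ D * t ^ (-s) := by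
      have a := h t ht0
      rw [hexp] at a
      have b : ‖((t ^ (-s) : ℝ) : ℂ) * mt c t‖ ≤ t ^ (-s) * (2 * ‖c‖) := by
        rw [norm_mul, Complex.norm_real, Real.norm_of_nonneg hts.le]
        exact mul_le_mul_of_nonneg_left (norm_mt c t) hts.le
      have d : t ^ (-s) / (1 + t) ≤ t ^ (-s) := by
        rw [div_le_iff₀ (by linarith)]
        nlinarith
      have e : ‖Phi n t‖ ≤ ‖Phi n t - ((t ^ (-s) : ℝ) : ℂ) * mt c t‖ +
          ‖((t ^ (-s) : ℝ) : ℂ) * mt c t‖ := by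
        have := norm_add_le (Phi n t - ((t ^ (-s) : ℝ) : ℂ) * mt c t)
          (((t ^ (-s) : ℝ) : ℂ) * mt c t)
        simpa using this
      have f : C * (t ^ (-s) / (1 + t)) ≤ C * t ^ (-s) := mul_le_mul_of_nonneg_left d hC.le
      have hpi := Real.pi_pos
      calc ‖Phi n t‖ ≤ C * t ^ (-s) + t ^ (-s) * (2 * ‖c‖) := by linarith
        _ ≤ D * t ^ (-s) := by
            rw [hD]
            nlinarith
    have e2 : (t ^ (-s)) ^ 2 ≤ 2 ^ s * (1 + t ^ 2) ^ (-s) := by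
      have a : (t ^ (-s)) ^ 2 = (t ^ 2) ^ (-s) := by
        rw [← Real.rpow_natCast, ← Real.rpow_mul ht, ← Real.rpow_natCast t 2, ← Real.rpow_mul ht]
        congr 1
        push_cast
        ring
      have b : (t ^ 2) ^ (-s) ≤ ((1 + t ^ 2) / 2) ^ (-s) :=
        Real.rpow_le_rpow_of_nonpos (by positivity) (by nlinarith) (by linarith)
      have d : ((1 + t ^ 2) / 2) ^ (-s) = 2 ^ s * (1 + t ^ 2) ^ (-s) := by
        rw [Real.div_rpow (by positivity) (by norm_num), Real.rpow_neg (by norm_num : (0:ℝ) ≤ 2)]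
        field_simp
      rw [a, ← d]
      exact b
    calc ‖Phi n t‖ ^ 2 ≤ (D * t ^ (-s)) ^ 2 := pow_le_pow_left₀ (norm_nonneg _) e1 2
      _ = D ^ 2 * (t ^ (-s)) ^ 2 := by ring
      _ ≤ D ^ 2 * (2 ^ s * (1 + t ^ 2) ^ (-s)) := by gcongr
      _ = _ := by ring
  · have e1 : ‖Phi n t‖ ≤ D := by
      have a := Phi_le n hn t
      have : 0 ≤ 2 * ‖c‖ + C := by positivity
      linarith
    have e2 : (1 : ℝ) ≤ 2 ^ s * (1 + t ^ 2) ^ (-s) := by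
      rw [Real.rpow_neg (by positivity), ← div_eq_mul_inv, one_le_div (by positivity)]
      exact Real.rpow_le_rpow (by positivity) (by nlinarith) hs0.le
    calc ‖Phi n t‖ ^ 2 ≤ D ^ 2 * 1 := by
          rw [mul_one]; exact pow_le_pow_left₀ (norm_nonneg _) e1 2
      _ ≤ D ^ 2 * (2 ^ s * (1 + t ^ 2) ^ (-s)) := by gcongr
      _ = _ := by ring

theorem ft_one (n : ℕ) (hn : 2 ≤ n) (ξ : E n) :
    ft (fun _ => 1) ξ = ((sg (n - 1)).real univ : ℂ) * Phi n ‖(2 * Real.pi) • ξ‖ := by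
  rw [← sphere_ft n hn]
  unfold ft
  have m1 : Measurable fun w : E n =>
      Complex.exp (-((⟪(2 * Real.pi) • ξ, w⟫ : ℝ) : ℂ) * I) := by
    have h2 : Measurable fun z : E n => (⟪(2 * Real.pi) • ξ, z⟫ : ℝ) :=
      (by fun_prop : Continuous _).measurable
    exact (Complex.measurable_exp.comp ((Complex.measurable_ofReal.comp h2).neg.mul_const I))
  simp only [sg]
  rw [integral_map measurable_subtype_coe.aemeasurable m1.aestronglyMeasurable]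
  refine integral_congr_ae (Filter.Eventually.of_forall fun x => ?_)
  simp only
  rw [mul_one, real_inner_smul_left, real_inner_comm]

theorem ft_one_sq (n : ℕ) (hn : 2 ≤ n) : ∃ C : ℝ, 0 < C ∧ ∀ ξ : E n,
    ‖ft (fun _ : sphere (0 : E n) 1 => (1 : ℂ)) ξ‖ₑ ^ 2 ≤
      ENNReal.ofReal C * Pool.Agent.N248.SD.br n ξ := by
  obtain ⟨C, hC, h⟩ := Phi_sq n hn
  have hn' : (2 : ℝ) ≤ n := by exact_mod_cast hn
  refine ⟨((sg (n - 1)).real univ ^ 2 + 1) * C, by positivity, fun ξ => ?_⟩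
  rw [ft_one n hn, ← ofReal_norm, ← ENNReal.ofReal_pow (norm_nonneg _)]
  unfold Pool.Agent.N248.SD.br
  rw [← ENNReal.ofReal_mul (by positivity)]
  refine ENNReal.ofReal_le_ofReal ?_
  rw [norm_mul, Complex.norm_real, mul_pow, Real.norm_eq_abs, sq_abs]
  have a := h _ (norm_nonneg ((2 * Real.pi) • ξ))
  have b : (1 + ‖(2 * Real.pi) • ξ‖ ^ 2) ^ (-(((n : ℝ) - 1) / 2)) ≤
      (1 + ‖ξ‖ ^ 2) ^ (-(((n : ℝ) - 1) / 2)) := by
    refine Real.rpow_le_rpow_of_nonpos (by positivity) ?_ (by linarith)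
    have hpi := Real.pi_gt_three
    rw [norm_smul, Real.norm_of_nonneg (by positivity)]
    have h1 : (1 : ℝ) ≤ (2 * Real.pi) ^ 2 := by nlinarith
    have h2 : 0 ≤ ‖ξ‖ ^ 2 := by positivity
    nlinarith
  have d : 0 ≤ (1 + ‖ξ‖ ^ 2) ^ (-(((n : ℝ) - 1) / 2)) := by positivity
  have e : 0 ≤ (sg (n - 1)).real univ ^ 2 := by positivity
  calc (sg (n - 1)).real univ ^ 2 * ‖Phi n ‖(2 * Real.pi) • ξ‖‖ ^ 2
      ≤ (sg (n - 1)).real univ ^ 2 * (C * (1 + ‖ξ‖ ^ 2) ^ (-(((n : ℝ) - 1) / 2))) := by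
        gcongr
        exact a.trans (mul_le_mul_of_nonneg_left b hC.le)
    _ ≤ _ := by nlinarith [mul_nonneg hC.le d]

theorem sigma_fin (n : ℕ) : IsFiniteMeasure (sigma n) := by
  unfold sigma; infer_instance

theorem ft_cont {n : ℕ} (g : sphere (0 : E n) 1 → ℂ) (hg : Integrable g (sigma n)) :
    Continuous (ft g) := by
  unfold ft
  refine continuous_of_dominated (bound := fun x => ‖g x‖) ?_ ?_ hg.norm ?_
  · intro ξ
    refine AEStronglyMeasurable.mul ?_ hg.1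
    exact (by fun_prop : Continuous _).aestronglyMeasurable
  · intro ξ
    refine Filter.Eventually.of_forall fun x => ?_
    have : (-(2 * Real.pi * ⟪(x : E n), ξ⟫ : ℝ) * I : ℂ) =
        ((-(2 * Real.pi * ⟪(x : E n), ξ⟫) : ℝ) : ℂ) * I := by push_cast; ring
    rw [norm_mul, this, Complex.norm_exp_ofReal_mul_I, one_mul]
  · refine Filter.Eventually.of_forall fun x => ?_
    fun_prop

/-- the Cauchy-Schwarz inequality for the square of the Fourier transform -/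
theorem cs {n : ℕ} (g : sphere (0 : E n) 1 → ℂ) (hg : Integrable g (sigma n)) (M : ℝ)
    (hM : 0 ≤ M) (hgM : ∀ᵐ x ∂(sigma n), ‖g x‖ ≤ M) :
    Run7.h750.AE.CS n (fun ξ => ‖ft g ξ‖ₑ ^ 2)
      (fun ξ => ‖ft (fun _ : sphere (0 : E n) 1 => (M : ℂ)) ξ‖ₑ ^ 2) := by
  have := sigma_fin n
  intro α β hα hβ
  have hp : Measurable fun x : sphere (0 : E n) 1 => -(x : E n) := by fun_prop
  have h := Pool.Agent.N248.SD.conv (sigma n) α β (fun x => -(x : E n)) hp g hg (fun _ => M)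
    (integrable_const M) (fun _ => hM) hgM
  have hW : ∀ (φ : sphere (0 : E n) 1 → ℂ) (u : E n),
      Pool.Agent.N248.SD.W (sigma n) (fun x => -(x : E n)) φ u = ft φ u := by
    intro φ u
    unfold Pool.Agent.N248.SD.W ft Pool.Agent.R412.RT.ee
    refine integral_congr_ae (Filter.Eventually.of_forall fun x => ?_)
    simp only
    congr 2
    rw [inner_neg_left]
    push_cast
    ring
  simp_rw [hW] at h
  exact h

theorem ft_const {n : ℕ} (M : ℝ) (ξ : E n) :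
    ft (fun _ : sphere (0 : E n) 1 => (M : ℂ)) ξ =
      (M : ℂ) * ft (fun _ : sphere (0 : E n) 1 => (1 : ℂ)) ξ := by
  unfold ft
  rw [← integral_const_mul]
  refine integral_congr_ae (Filter.Eventually.of_forall fun x => ?_)
  simp only
  ring

/-- all the data -/
theorem setup (n : ℕ) (hn : 2 ≤ n) : ∃ K : ℝ, 0 < K ∧ ∀ g : sphere (0 : E n) 1 → ℂ,
    MemLp g ∞ (sigma n) → ∃ kG : E n → ℝ≥0∞, Measurable kG ∧ Measurable (fun ξ => ‖ft g ξ‖ₑ ^ 2) ∧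
      (∀ ξ, kG ξ ≤ eLpNorm g ∞ (sigma n) ^ 2 * ENNReal.ofReal K * Pool.Agent.N248.SD.br n ξ) ∧
      Run7.h750.AE.CS n (fun ξ => ‖ft g ξ‖ₑ ^ 2) kG ∧
      (eLpNorm g ∞ (sigma n) = 0 → ∀ ξ, ‖ft g ξ‖ₑ ^ 2 = 0) := by
  have hfin := sigma_fin n
  obtain ⟨K, hK, h⟩ := ft_one_sq n hn
  refine ⟨K, hK, fun g hg => ?_⟩
  set M : ℝ := (eLpNorm g ∞ (sigma n)).toReal with hM
  have hM0 : 0 ≤ M := ENNReal.toReal_nonneg
  have hMN : ENNReal.ofReal M = eLpNorm g ∞ (sigma n) := ENNReal.ofReal_toReal hg.2.ne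
  have hgi : Integrable g (sigma n) := hg.integrable le_top
  have hae : ∀ᵐ x ∂(sigma n), ‖g x‖ ≤ M := by
    have h1 : ∀ᵐ x ∂(sigma n), ‖g x‖ₑ ≤ eLpNorm g ∞ (sigma n) := by
      rw [eLpNorm_exponent_top]
      exact ae_le_eLpNormEssSup
    filter_upwards [h1] with x hx
    rw [← hMN, ← ofReal_norm, ENNReal.ofReal_le_ofReal_iff hM0] at hx
    exact hx
  refine ⟨fun ξ => ‖ft (fun _ : sphere (0 : E n) 1 => (M : ℂ)) ξ‖ₑ ^ 2, ?_, ?_, ?_, ?_, ?_⟩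
  · exact (ft_cont _ (integrable_const _)).measurable.enorm.pow_const 2
  · exact (ft_cont _ hgi).measurable.enorm.pow_const 2
  · intro ξ
    show ‖ft (fun _ : sphere (0 : E n) 1 => (M : ℂ)) ξ‖ₑ ^ 2 ≤ _
    rw [ft_const, enorm_mul, mul_pow, mul_assoc]
    refine mul_le_mul' ?_ (h ξ)
    rw [← ofReal_norm, Complex.norm_real, Real.norm_of_nonneg hM0, hMN]
  · exact cs g hgi M hM0 hae
  · intro h0 ξ
    have h1 : g =ᵐ[sigma n] 0 := (eLpNorm_eq_zero_iff hg.1 (by simp)).1 h0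
    have h2 : ft g ξ = 0 := by
      unfold ft
      have : ∀ᵐ x : sphere (0 : E n) 1 ∂(sigma n),
          Complex.exp (-(2 * Real.pi * ⟪(x : E n), ξ⟫ : ℝ) * I) * g x = 0 := by
        filter_upwards [h1] with x hx
        rw [hx]; simp
      rw [integral_congr_ae this, integral_zero]
    rw [h2]; simp

theorem energy_eq {n : ℕ} (α : Measure (E n)) :
    energy α = ∫⁻ x, ∫⁻ y, Pool.Agent.N248.SD.br n (x - y) ∂α ∂α := rfl

theorem part1 (n : ℕ) (g : sphere (0 : E n) 1 → ℂ) (kG : E n → ℝ≥0∞) (hkG : Measurable kG)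
    (hk : Measurable (fun ξ => ‖ft g ξ‖ₑ ^ 2)) (c : ℝ≥0∞)
    (hb : ∀ ξ, kG ξ ≤ c * Pool.Agent.N248.SD.br n ξ)
    (hCS : Run7.h750.AE.CS n (fun ξ => ‖ft g ξ‖ₑ ^ 2) kG)
    (α β : Measure (E n)) (hα : IsFiniteMeasure α) (hβ : IsFiniteMeasure β) :
    ∫⁻ x, ∫⁻ y, ‖ft g (x - y)‖ₑ ^ 2 ∂β ∂α ≤ c * (energy α * energy β) ^ (1 / 2 : ℝ) := by
  have h := hCS β α hβ hα
  have hbm := Pool.Agent.N248.SD.br_meas n
  have e0 : ∀ (μ ν : Measure (E n)) [IsFiniteMeasure μ] [IsFiniteMeasure ν] (k : E n → ℝ≥0∞),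
      Measurable k → ∫⁻ ω, k (ω.2 - ω.1) ∂(μ.prod ν) = ∫⁻ x, ∫⁻ y, k (x - y) ∂μ ∂ν := by
    intro μ ν _ _ k hk
    have hm : Measurable fun ω : E n × E n => k (ω.2 - ω.1) :=
      hk.comp (measurable_snd.sub measurable_fst)
    rw [lintegral_prod_symm _ hm.aemeasurable]
  rw [e0 β α _ hk] at h
  have e1 : ∀ (μ : Measure (E n)) [IsFiniteMeasure μ],
      ∫⁻ ω, kG (ω.2 - ω.1) ∂(μ.prod μ) ≤ c * energy μ := by
    intro μ _
    rw [e0 μ μ _ hkG, energy_eq]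
    have hm : Measurable (Function.uncurry fun x y : E n =>
        Pool.Agent.N248.SD.br n (x - y)) := by
      unfold Function.uncurry
      fun_prop
    have hm2 : Measurable fun x : E n => ∫⁻ y, Pool.Agent.N248.SD.br n (x - y) ∂μ :=
      hm.lintegral_prod_right'
    rw [← lintegral_const_mul _ hm2]
    refine lintegral_mono fun x => ?_
    rw [← lintegral_const_mul _ (by fun_prop)]
    exact lintegral_mono fun y => hb _
  have h2 := h.trans (mul_le_mul' (e1 α) (e1 β))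
  have h3 : (c * (energy α * energy β) ^ (1 / 2 : ℝ)) ^ 2 = c * energy α * (c * energy β) := by
    rw [mul_pow, ← ENNReal.rpow_natCast (_ ^ (1 / 2 : ℝ)), ← ENNReal.rpow_mul]
    norm_num
    ring
  rw [← h3] at h2
  exact (ENNReal.pow_le_pow_left_iff (by norm_num)).1 h2

theorem neg_int {n : ℕ} (h : E n → ℝ≥0∞) : ∫⁻ x, h (-x) = ∫⁻ x, h x :=
  lintegral_neg_eq_self h

theorem part2 (n : ℕ) (hn : 2 ≤ n) (g : sphere (0 : E n) 1 → ℂ) (kG : E n → ℝ≥0∞)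
    (hkG : Measurable kG) (hk : Measurable (fun ξ => ‖ft g ξ‖ₑ ^ 2)) (c : ℝ≥0∞)
    (hb : ∀ ξ, kG ξ ≤ c * Pool.Agent.N248.SD.br n ξ)
    (hCS : Run7.h750.AE.CS n (fun ξ => ‖ft g ξ‖ₑ ^ 2) kG)
    (h₁ h₂ : E n → ℝ≥0∞) (m₁ : Measurable h₁) (m₂ : Measurable h₂) :
    ∫⁻ ξ, ‖ft g ξ‖ₑ ^ 2 * conv h₁ h₂ ξ ≤
      c * ((Pool.Agent.N248.SD.Rz n + 1) * (2 * Pool.Agent.N484.KC.cH (n : ℝ))) *
        (norm (2 * (n : ℝ) / (n + 1)) h₁ * norm (2 * (n : ℝ) / (n + 1)) h₂) := by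
  have h := Run7.h750.AE.wt (fun ξ => ‖ft g ξ‖ₑ ^ 2) kG hk hkG c hb hCS hn (fun x => h₁ (-x)) h₂
    (m₁.comp measurable_neg) m₂
  have e1 : Pool.Agent.N484.KC.nr (Pool.Agent.N484.KC.pe (n : ℝ)) (fun x : E n => h₁ (-x)) =
      norm (2 * (n : ℝ) / (n + 1)) h₁ := by
    unfold Pool.Agent.N484.KC.nr norm Pool.Agent.N484.KC.pe
    rw [neg_int (fun x => h₁ x ^ (2 * (n : ℝ) / ((n : ℝ) + 1)))]
  have e2 : Pool.Agent.N484.KC.nr (Pool.Agent.N484.KC.pe (n : ℝ)) h₂ =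
      norm (2 * (n : ℝ) / (n + 1)) h₂ := rfl
  rw [e1, e2] at h
  refine le_trans (le_of_eq ?_) h
  unfold Run7.h750.AE.DD conv
  -- substitute
  have s1 : ∀ y : E n, ∫⁻ w, h₁ (-y) * h₂ w * ‖ft g (w - y)‖ₑ ^ 2 =
      ∫⁻ ξ, h₁ (-y) * h₂ (ξ - -y) * ‖ft g ξ‖ₑ ^ 2 := by
    intro y
    rw [← lintegral_sub_right_eq_self (fun w => h₁ (-y) * h₂ w * ‖ft g (w - y)‖ₑ ^ 2) (-y)]
    refine lintegral_congr fun w => ?_
    congr 4
    abel
  simp_rw [s1]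
  rw [neg_int (fun y => ∫⁻ ξ, h₁ y * h₂ (ξ - y) * ‖ft g ξ‖ₑ ^ 2)]
  have hm : Measurable (Function.uncurry fun y ξ : E n =>
      h₁ y * h₂ (ξ - y) * ‖ft g ξ‖ₑ ^ 2) := by
    unfold Function.uncurry
    have a1 : Measurable fun p : E n × E n => h₁ p.1 := m₁.comp measurable_fst
    have a2 : Measurable fun p : E n × E n => h₂ (p.2 - p.1) :=
      m₂.comp (measurable_snd.sub measurable_fst)
    have a3 : Measurable fun p : E n × E n => ‖ft g p.2‖ₑ ^ 2 := hk.comp measurable_snd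
    exact (a1.mul a2).mul a3
  rw [lintegral_lintegral_swap hm.aemeasurable]
  refine lintegral_congr fun ξ => ?_
  rw [← lintegral_const_mul _ (by fun_prop)]
  refine lintegral_congr fun y => ?_
  ring

theorem part3 (n : ℕ) (hn : 2 ≤ n) (g : sphere (0 : E n) 1 → ℂ) (kG : E n → ℝ≥0∞)
    (hkG : Measurable kG) (hk : Measurable (fun ξ => ‖ft g ξ‖ₑ ^ 2)) (c : ℝ≥0∞)
    (hb : ∀ ξ, kG ξ ≤ c * Pool.Agent.N248.SD.br n ξ)
    (hCS : Run7.h750.AE.CS n (fun ξ => ‖ft g ξ‖ₑ ^ 2) kG) (hc : c = 0 → ∀ ξ, ‖ft g ξ‖ₑ ^ 2 = 0)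
    (lam : ℝ) (A B : Set (E n)) (hA : MeasurableSet A) (hB : MeasurableSet B)
    (hl : ∀ ξ ∈ B, lam ≤ ‖ft g ξ‖) :
    ENNReal.ofReal lam ^ 4 * addEnergy A B ^ (1 + 1 / (n : ℝ)) ≤
      (c * (Pool.Agent.N248.SD.Rz n + 1)) ^ 2 * (volume A ^ (1 + 3 / (n : ℝ)) *
        volume B ^ (2 / (n : ℝ))) := by
  have h := Run7.h750.AE.energyAll (fun ξ => ‖ft g ξ‖ₑ ^ 2) kG hk hkG c hb hCS (by omega) A B
    hA hB (ENNReal.ofReal lam ^ 2) hc (by
      intro ξ hξ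
      refine pow_le_pow_left' ?_ 2
      rw [← ofReal_norm]
      exact ENNReal.ofReal_le_ofReal (hl ξ hξ))
  have e : ENNReal.ofReal lam ^ 4 = (ENNReal.ofReal lam ^ 2) ^ 2 := by ring
  rw [e]
  exact h

/-- **Convolution weights and additive energy.** Let `n ≥ 2` and let `σ` be surface measure on the
unit sphere of `ℝ^n`. There is a constant `C` such that for every `g ∈ L^∞(σ)`:

* `∬ |(g dσ)^(x - y)|² dβ(y) dα(x) ≤ C ‖g‖_∞² (I(α) I(β))^(1/2)` for all finite measures `α, β`;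
* `∫ |(g dσ)^|² (h₁ * h₂) ≤ C ‖g‖_∞² ‖h₁‖_p ‖h₂‖_p` with `p = 2n/(n+1)`, for all measurable
  `h₁, h₂ ≥ 0`;
* if `λ ≥ 0` and `B` is a measurable set with `|(g dσ)^| ≥ λ` on `B`, then
  `λ⁴ E(A,B)^(1+1/n) ≤ C |A|^(1+3/n) |B|^(2/n) ‖g‖_∞⁴` for all measurable `A`, and if `|B| < ∞` and
  `E(B,B) ≥ δ |B|³` then `λ⁴ δ^(1+1/n) |B|^(2-2/n) ≤ C ‖g‖_∞⁴`. -/
theorem result (n : ℕ) (hn : 2 ≤ n) : ∃ C : ℝ≥0, ∀ g : sphere (0 : E n) 1 → ℂ,
    MemLp g ∞ (sigma n) →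
      (∀ α β : Measure (E n), IsFiniteMeasure α → IsFiniteMeasure β →
        ∫⁻ x, ∫⁻ y, ‖ft g (x - y)‖ₑ ^ 2 ∂β ∂α ≤
          C * eLpNorm g ∞ (sigma n) ^ 2 * (energy α * energy β) ^ (1 / 2 : ℝ)) ∧
      (∀ h₁ h₂ : E n → ℝ≥0∞, Measurable h₁ → Measurable h₂ →
        ∫⁻ ξ, ‖ft g ξ‖ₑ ^ 2 * conv h₁ h₂ ξ ≤
          C * eLpNorm g ∞ (sigma n) ^ 2 *
            (norm (2 * (n : ℝ) / (n + 1)) h₁ * norm (2 * (n : ℝ) / (n + 1)) h₂)) ∧
      (∀ (lam : ℝ) (B : Set (E n)), 0 ≤ lam → MeasurableSet B → (∀ ξ ∈ B, lam ≤ ‖ft g ξ‖) →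
        (∀ A : Set (E n), MeasurableSet A →
          ENNReal.ofReal lam ^ 4 * addEnergy A B ^ (1 + 1 / (n : ℝ)) ≤
            C * eLpNorm g ∞ (sigma n) ^ 4 *
              (volume A ^ (1 + 3 / (n : ℝ)) * volume B ^ (2 / (n : ℝ)))) ∧
        (∀ δ : ℝ≥0, volume B ≠ ∞ → δ * volume B ^ 3 ≤ addEnergy B B →
          ENNReal.ofReal lam ^ 4 * (δ : ℝ≥0∞) ^ (1 + 1 / (n : ℝ)) *
              volume B ^ (2 - 2 / (n : ℝ)) ≤
            C * eLpNorm g ∞ (sigma n) ^ 4)) := by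
  obtain ⟨K, hK, hset⟩ := setup n hn
  have hRz := Pool.Agent.N248.SD.Rz_ne_top n (by omega)
  have hcH : Pool.Agent.N484.KC.cH (n : ℝ) ≠ ∞ := by
    unfold Pool.Agent.N484.KC.cH
    have hn' : (2 : ℝ) ≤ n := by exact_mod_cast hn
    exact ENNReal.rpow_ne_top_of_nonneg (div_nonneg (by linarith) (by linarith))
      ENNReal.ofReal_ne_top
  set c1 : ℝ≥0∞ := ENNReal.ofReal K with hc1
  set c2 : ℝ≥0∞ := ENNReal.ofReal K *
    ((Pool.Agent.N248.SD.Rz n + 1) * (2 * Pool.Agent.N484.KC.cH (n : ℝ))) with hc2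
  set c3 : ℝ≥0∞ := (ENNReal.ofReal K * (Pool.Agent.N248.SD.Rz n + 1)) ^ 2 with hc3
  have t1 : c1 ≠ ∞ := ENNReal.ofReal_ne_top
  have t2 : c2 ≠ ∞ := ENNReal.mul_ne_top t1 (ENNReal.mul_ne_top
    (ENNReal.add_ne_top.2 ⟨hRz, ENNReal.one_ne_top⟩) (ENNReal.mul_ne_top (by simp) hcH))
  have t3 : c3 ≠ ∞ := ENNReal.pow_ne_top (ENNReal.mul_ne_top t1
    (ENNReal.add_ne_top.2 ⟨hRz, ENNReal.one_ne_top⟩))
  have tt : c1 + c2 + c3 ≠ ∞ := ENNReal.add_ne_top.2 ⟨ENNReal.add_ne_top.2 ⟨t1, t2⟩, t3⟩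
  refine ⟨(c1 + c2 + c3).toNNReal, fun g hg => ?_⟩
  rw [ENNReal.coe_toNNReal tt]
  obtain ⟨kG, mkG, mk, hb, hCS, h0⟩ := hset g hg
  set N : ℝ≥0∞ := eLpNorm g ∞ (sigma n) with hN
  have le1 : c1 ≤ c1 + c2 + c3 := le_self_add.trans le_self_add
  have le2 : c2 ≤ c1 + c2 + c3 := le_add_self.trans le_self_add
  have le3 : c3 ≤ c1 + c2 + c3 := le_add_self
  refine ⟨fun α β hα hβ => ?_, fun h₁ h₂ m₁ m₂ => ?_, fun lam B hlam hB hl => ?_⟩
  · refine (part1 n g kG mkG mk _ hb hCS α β hα hβ).trans ?_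
    refine mul_le_mul' ?_ le_rfl
    rw [mul_comm]
    exact mul_le_mul' le1 le_rfl
  · refine (part2 n hn g kG mkG mk _ hb hCS h₁ h₂ m₁ m₂).trans ?_
    refine mul_le_mul' ?_ le_rfl
    rw [mul_assoc, mul_comm]
    exact mul_le_mul' le2 le_rfl
  · have hmain : ∀ A : Set (E n), MeasurableSet A →
          ENNReal.ofReal lam ^ 4 * addEnergy A B ^ (1 + 1 / (n : ℝ)) ≤
            (c1 + c2 + c3) * N ^ 4 *
              (volume A ^ (1 + 3 / (n : ℝ)) * volume B ^ (2 / (n : ℝ))) := by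
      intro A hA
      refine (part3 n hn g kG mkG mk _ hb hCS ?_ lam A B hA hB hl).trans ?_
      · intro hc
        apply h0
        rcases mul_eq_zero.1 hc with hc | hc
        · exact (pow_eq_zero_iff (by norm_num)).1 hc
        · exact absurd hc (ENNReal.ofReal_pos.2 hK).ne'
      · refine mul_le_mul' ?_ le_rfl
        calc (N ^ 2 * ENNReal.ofReal K * (Pool.Agent.N248.SD.Rz n + 1)) ^ 2 = c3 * N ^ 4 := by
              rw [hc3]; ring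
          _ ≤ _ := mul_le_mul' le3 le_rfl
    refine ⟨hmain, ?_⟩
    intro δ hBf hδ
    have hn0 : (2 : ℝ) ≤ n := by exact_mod_cast hn
    have hN0 : (0 : ℝ) < n := by linarith
    have h22 : 0 < 2 - 2 / (n : ℝ) := by
      have : 2 / (n : ℝ) ≤ 1 := by rw [div_le_one hN0]; exact hn0
      linarith
    rcases eq_or_ne (volume B) 0 with h0 | h0
    · rw [h0, ENNReal.zero_rpow_of_pos h22, mul_zero]
      exact zero_le
    have h1 := hmain B hB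
    set b : ℝ≥0∞ := volume B with hbd
    have hX0 : b ^ (1 + 5 / (n : ℝ)) ≠ 0 := by
      rw [Ne, ENNReal.rpow_eq_zero_iff]
      push Not
      exact ⟨fun h => absurd h h0, fun h => absurd h hBf⟩
    have hXt : b ^ (1 + 5 / (n : ℝ)) ≠ ∞ := ENNReal.rpow_ne_top_of_nonneg (by positivity) hBf
    rw [← ENNReal.mul_le_mul_iff_left hX0 hXt]
    have e1 : b ^ (2 - 2 / (n : ℝ)) * b ^ (1 + 5 / (n : ℝ)) = (b ^ 3) ^ (1 + 1 / (n : ℝ)) := by
      rw [← ENNReal.rpow_add _ _ h0 hBf, ← ENNReal.rpow_natCast, ← ENNReal.rpow_mul]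
      congr 1
      push_cast
      field_simp
      ring
    have e2 : b ^ (1 + 3 / (n : ℝ)) * b ^ (2 / (n : ℝ)) = b ^ (1 + 5 / (n : ℝ)) := by
      rw [← ENNReal.rpow_add _ _ h0 hBf]
      congr 1
      ring
    calc ENNReal.ofReal lam ^ 4 * (δ : ℝ≥0∞) ^ (1 + 1 / (n : ℝ)) * b ^ (2 - 2 / (n : ℝ)) *
          b ^ (1 + 5 / (n : ℝ))
        = ENNReal.ofReal lam ^ 4 *
            ((δ : ℝ≥0∞) ^ (1 + 1 / (n : ℝ)) * (b ^ 3) ^ (1 + 1 / (n : ℝ))) := by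
          rw [mul_assoc, e1]; ring
      _ = ENNReal.ofReal lam ^ 4 * (δ * b ^ 3) ^ (1 + 1 / (n : ℝ)) := by
          rw [ENNReal.mul_rpow_of_nonneg _ _ (by positivity)]
      _ ≤ ENNReal.ofReal lam ^ 4 * addEnergy B B ^ (1 + 1 / (n : ℝ)) :=
          mul_le_mul' le_rfl (ENNReal.rpow_le_rpow hδ (by positivity))
      _ ≤ _ := h1
      _ = _ := by rw [e2]

end Pool.Agent.Results.MP_6cbfb8_an.ConvolutionWeights
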